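import Pool.Agent.MWHP.StmtsN

set_option autoImplicit false

namespace Pool.Agent.MWHP.H77

open Pool.Agent.Helper14_MV Pool.Agent.Helper2_MV Pool.Agent.MVO Pool.Agent.MWL Pool.Agent.MWS
open Pool.Agent.MWA Pool.Agent.MWH

/-- the counts of the letters of a word -/
theorem cnt (p w q : List ℕ) (x c : ℕ) : (p ++ x :: (w ++ x :: q)).count c =
    p.count c + w.count c + q.count c + 2 * [x].count c := by
  have e : ∀ l : List ℕ, (x :: l).count c = l.count c + [x].count c := by
    intro l
    rw [← List.singleton_append, List.count_append, Nat.add_comm]
  rw [List.count_append, e, List.count_append, e]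
  omega

theorem cnt_x (p w q : List ℕ) (x : ℕ) : 2 ≤ (p ++ x :: (w ++ x :: q)).count x := by
  rw [cnt, List.count_singleton_self]
  omega

theorem nf {n : ℕ} {β : FIC} (h : ItN n β) (x : ℕ) (q : List ℕ) (N : ℕ) :
    ∀ (w p : List ℕ), w.length ≤ N →
      (∀ c ∈ w, c ≠ x → 2 ≤ (p ++ x :: (w ++ x :: q)).count c) →
      RR β (p ++ x :: (w ++ x :: q)) (p ++ x :: (List.replicate (w.count x) x ++
        (w.filter (fun c => c ≠ x) ++ x :: q))) := by
  induction N with
  | zero =>
    intro w p hw _
    have : w = [] := List.length_eq_zero_iff.1 (by omega)
    subst this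
    exact RR.refl _
  | succ N ih =>
    intro w p hw hc
    cases w with
    | nil => exact RR.refl _
    | cons c w0 =>
      rw [List.length_cons] at hw
      by_cases hcx : c = x
      · subst hcx
        have h1 := ih w0 (p ++ [c]) (by omega) (by
          intro d hd hdc
          have h2 := hc d (by simp [hd]) hdc
          have e : p ++ [c] ++ c :: (w0 ++ c :: q) = p ++ c :: (c :: w0 ++ c :: q) := by simp
          rw [e]
          exact h2)
        have e1 : p ++ [c] ++ c :: (w0 ++ c :: q) = p ++ c :: (c :: w0 ++ c :: q) := by simp
        have e2 : p ++ [c] ++ c :: (List.replicate (w0.count c) c ++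
            (w0.filter (fun d => d ≠ c) ++ c :: q)) =
            p ++ c :: (List.replicate ((c :: w0).count c) c ++
              ((c :: w0).filter (fun d => d ≠ c) ++ c :: q)) := by
          rw [List.count_cons_self, List.replicate_succ, List.filter_cons_of_neg (by simp)]
          simp
        rw [e1, e2] at h1
        exact h1
      · by_cases hx : x ∈ w0
        · obtain ⟨a, b, rfl⟩ := List.append_of_mem hx
          have e0 : p ++ x :: (c :: (a ++ x :: b) ++ x :: q) =
              p ++ x :: ((c :: a) ++ x :: (b ++ x :: q)) := by simp
          have hcount : ∀ d, (p ++ [x] ++ x :: ((c :: a ++ b) ++ x :: q)).count d =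
              (p ++ x :: (c :: (a ++ x :: b) ++ x :: q)).count d := by
            intro d
            have hp : (p ++ [x] ++ x :: ((c :: a ++ b) ++ x :: q)).Perm
                (p ++ x :: (c :: (a ++ x :: b) ++ x :: q)) := by
              rw [List.append_assoc]
              refine List.Perm.append_left p ?_
              show (x :: x :: ((c :: a ++ b) ++ x :: q)).Perm _
              refine List.Perm.cons x ?_
              have e : c :: (a ++ x :: b) ++ x :: q = (c :: a) ++ x :: (b ++ x :: q) := by simp
              rw [e, List.append_assoc]
              exact (List.perm_middle).symm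
            exact hp.count_eq d
          have hall : ∀ d, d ∈ c :: a ∨ d ∈ b →
              2 ≤ (p ++ x :: ((c :: a) ++ x :: (b ++ x :: q))).count d := by
            intro d hd
            rw [← e0]
            by_cases hdx : d = x
            · subst hdx
              exact cnt_x _ _ _ _
            · refine hc d ?_ hdx
              rcases hd with hd | hd
              · rcases List.mem_cons.1 hd with h1 | h1
                · rw [h1]; simp
                · simp [h1]
              · simp [hd]
          have h1 := h.two p (c :: a) b q x hall
          rw [← e0] at h1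
          have e3 : p ++ x :: x :: ((c :: a) ++ (b ++ x :: q)) =
              p ++ [x] ++ x :: ((c :: a ++ b) ++ x :: q) := by simp
          rw [e3] at h1
          have h2 := ih (c :: a ++ b) (p ++ [x]) (by
            simp only [List.length_append, List.length_cons] at hw ⊢
            omega) (by
            intro d hd hdx
            rw [hcount]
            refine hc d ?_ hdx
            rcases List.mem_append.1 hd with h1 | h1
            · rcases List.mem_cons.1 h1 with h1 | h1
              · rw [h1]; simp
              · simp [h1]
            · simp [h1])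
          have e4 : p ++ [x] ++ x :: (List.replicate ((c :: a ++ b).count x) x ++
              ((c :: a ++ b).filter (fun d => d ≠ x) ++ x :: q)) =
              p ++ x :: (List.replicate ((c :: (a ++ x :: b)).count x) x ++
                ((c :: (a ++ x :: b)).filter (fun d => d ≠ x) ++ x :: q)) := by
            have f1 : (c :: (a ++ x :: b)).count x = (c :: a ++ b).count x + 1 := by
              simp only [List.cons_append, List.count_cons_of_ne hcx, List.count_append,
                List.count_cons_self]
              omega
            have f2 : (c :: (a ++ x :: b)).filter (fun d => decide (d ≠ x)) =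
                (c :: a ++ b).filter (fun d => decide (d ≠ x)) := by
              simp only [List.cons_append, List.filter_cons, List.filter_append]
              simp
            rw [f1, f2, List.replicate_succ]
            simp
          rw [e4] at h2
          exact β.trans h1 h2
        · have f1 : (c :: w0).count x = 0 := by
            rw [List.count_cons_of_ne hcx]
            exact List.count_eq_zero_of_not_mem hx
          have f2 : (c :: w0).filter (fun d => decide (d ≠ x)) = c :: w0 := by
            rw [List.filter_eq_self]
            intro d hd
            refine decide_eq_true ?_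
            rintro rfl
            rcases List.mem_cons.1 hd with h1 | h1
            · exact hcx h1.symm
            · exact hx h1
          rw [f1, f2]
          exact RR.refl _

theorem num1 {n : ℕ} {β : FIC} (h : ItN n β) (x : ℕ) (p f q : List ℕ) (m : ℕ)
    (hf : ∀ c ∈ f, 2 ≤ (p ++ x :: (f ++ x :: q)).count c) :
    RR β (p ++ x :: (List.replicate m x ++ (f ++ x :: q)))
      (p ++ x :: (List.replicate (m + n) x ++ (f ++ x :: q))) := by
  have h1 := h.one p (List.replicate m x ++ f) q x (by
    intro c hc
    rcases List.mem_append.1 hc with h1 | h1
    · rw [List.eq_of_mem_replicate h1]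
      exact cnt_x _ _ _ _
    · have h2 := hf c h1
      rw [cnt] at h2 ⊢
      rw [List.count_append]
      omega)
  have e1 : p ++ x :: ((List.replicate m x ++ f) ++ x :: q) =
      p ++ x :: (List.replicate m x ++ (f ++ x :: q)) := by simp
  have e2 : p ++ (List.replicate (n + 1) x ++ ((List.replicate m x ++ f) ++ x :: q)) =
      p ++ x :: (List.replicate (m + n) x ++ (f ++ x :: q)) := by
    rw [List.replicate_succ, Nat.add_comm m n, List.replicate_add]
    simp only [List.append_assoc, List.cons_append]
  rw [e1, e2] at h1
  exact h1

theorem num {n : ℕ} {β : FIC} (h : ItN n β) (x : ℕ) (p f q : List ℕ)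
    (hf : ∀ c ∈ f, 2 ≤ (p ++ x :: (f ++ x :: q)).count c) (m j : ℕ) :
    RR β (p ++ x :: (List.replicate m x ++ (f ++ x :: q)))
      (p ++ x :: (List.replicate (m + n * j) x ++ (f ++ x :: q))) := by
  induction j with
  | zero => exact RR.refl _
  | succ j ih =>
    have h1 := num1 h x p f q (m + n * j) hf
    have e : m + n * j + n = m + n * (j + 1) := by ring
    rw [e] at h1
    exact β.trans ih h1

theorem numM {n : ℕ} {β : FIC} (h : ItN n β) (x : ℕ) (p f q : List ℕ)
    (hf : ∀ c ∈ f, 2 ≤ (p ++ x :: (f ++ x :: q)).count c) (m m' : ℕ) (hm : m ≡ m' [MOD n]) :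
    RR β (p ++ x :: (List.replicate m x ++ (f ++ x :: q)))
      (p ++ x :: (List.replicate m' x ++ (f ++ x :: q))) := by
  rcases Nat.le_total m m' with hle | hle
  · obtain ⟨j, hj⟩ := (Nat.modEq_iff_dvd' hle).1 hm
    have e : m' = m + n * j := by omega
    rw [e]
    exact num h x p f q hf m j
  · obtain ⟨j, hj⟩ := (Nat.modEq_iff_dvd' hle).1 hm.symm
    have e : m = m' + n * j := by omega
    rw [e]
    exact (num h x p f q hf m' j).symm

theorem int : IntStmt := by
  intro n β h p w w1 q x hw hf hm
  have hcf : ∀ (l : List ℕ) (c : ℕ), c ≠ x → (l.filter (fun c => c ≠ x)).count c = l.count c := by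
    intro l c hc
    exact List.count_filter (decide_eq_true hc)
  have hcw : ∀ c, c ≠ x → w1.count c = w.count c := by
    intro c hc
    rw [← hcf w1 c hc, ← hf, hcf w c hc]
  have a1 := nf h x q w.length w p le_rfl hw
  have a2 := nf h x q w1.length w1 p le_rfl (by
    intro c hc hcx
    have h1 : c ∈ w := by
      rw [← List.count_pos_iff, ← hcw c hcx]
      exact List.count_pos_iff.2 hc
    have h2 := hw c h1 hcx
    rw [cnt] at h2 ⊢
    rw [hcw c hcx]
    exact h2)
  rw [← hf] at a2
  have a3 := numM h x p (w.filter (fun c => c ≠ x)) q (by
    intro c hc
    obtain ⟨h1, h2⟩ := List.mem_filter.1 hc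
    have hcx : c ≠ x := of_decide_eq_true h2
    have h3 := hw c h1 hcx
    rw [cnt] at h3 ⊢
    rw [hcf w c hcx]
    exact h3) (w.count x) (w1.count x) hm
  exact β.trans a1 (β.trans a3 a2.symm)

end Pool.Agent.MWHP.H77
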